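import Mathlib
import Pool.Agent.Helper17.Relax1
import Pool.Agent.Helper17.Relax2

/-!
# The path maximises the relaxation time among connected graphs with `m` edges

For every finite connected graph `G` with `m ≥ 1` edges the relaxation time of simple random walk
on `G` is at most `1 / (1 - cos (π / m))`, which is the relaxation time of the path with `m`
edges.
-/

namespace Pool.Agent.Results.MP_ea35a0_co.RelaxationTime

open Finset SimpleGraph Filter Topology

/-- The degree of the vertex `x`. -/
noncomputable def deg {V : Type} (G : SimpleGraph V) (x : V) : ℕ := Nat.card {y // G.Adj x y}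

open Classical in
/-- The transition matrix of simple random walk on `G`. -/
noncomputable def P {V : Type} (G : SimpleGraph V) (x y : V) : ℝ :=
  if G.Adj x y then 1 / (deg G x : ℝ) else 0

/-- The real number `μ` is an eigenvalue of the transition matrix. -/
def IsEigenvalue {V : Type} [Fintype V] (G : SimpleGraph V) (μ : ℝ) : Prop :=
  ∃ f : V → ℝ, f ≠ 0 ∧ ∀ x, ∑ y, P G x y * f y = μ * f x

/-- The second largest eigenvalue `λ₂`: the largest eigenvalue of the transition matrix different
from `1` (for a connected graph the eigenvalue `1` is simple, see `result`). -/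
noncomputable def lambda2 {V : Type} [Fintype V] (G : SimpleGraph V) : ℝ :=
  sSup {μ : ℝ | IsEigenvalue G μ ∧ μ ≠ 1}

/-- The relaxation time `1 / (1 - λ₂)`. -/
noncomputable def Trel {V : Type} [Fintype V] (G : SimpleGraph V) : ℝ := 1 / (1 - lambda2 G)

/-- The set of relaxation times of the connected graphs with `m` edges. -/
def relaxationTimes (m : ℕ) : Set ℝ :=
  {t | ∃ (V : Type) (_ : Fintype V) (G : SimpleGraph V),
    G.Connected ∧ Nat.card G.edgeSet = m ∧ Trel G = t}

/-- The set of relaxation times of the trees with `m` edges. -/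
def relaxationTimesTree (m : ℕ) : Set ℝ :=
  {t | ∃ (V : Type) (_ : Fintype V) (G : SimpleGraph V),
    G.IsTree ∧ Nat.card G.edgeSet = m ∧ Trel G = t}

/-- `R(m)`, the largest relaxation time of a connected graph with `m` edges. -/
noncomputable def R (m : ℕ) : ℝ := sSup (relaxationTimes m)

/-- `R_tree(m)`, the largest relaxation time of a tree with `m` edges. -/
noncomputable def Rtree (m : ℕ) : ℝ := sSup (relaxationTimesTree m)

section

variable {V : Type} [Fintype V]

open Classical in
theorem deg_cast (G : SimpleGraph V) (x : V) :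
    (deg G x : ℝ) = ∑ y, if G.Adj x y then (1 : ℝ) else 0 := by
  rw [deg, Nat.card_eq_fintype_card, Fintype.card_subtype]
  simp

open Classical in
theorem sum_P (G : SimpleGraph V) (x : V) (f : V → ℝ) :
    ∑ y, P G x y * f y = (∑ y, if G.Adj x y then f y else 0) / deg G x := by
  rw [sum_div]
  refine sum_congr rfl fun y _ => ?_
  unfold P
  split_ifs
  · ring
  · simp

theorem deg_pos {G : SimpleGraph V} (hG : G.Connected) (hm : 1 ≤ Nat.card G.edgeSet) (x : V) :
    0 < deg G x := by
  have hne : Nonempty G.edgeSet := by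
    by_contra h
    rw [not_nonempty_iff] at h
    have : Nat.card G.edgeSet = 0 := by simp
    omega
  obtain ⟨⟨e, he⟩⟩ := hne
  have hnt : Nontrivial V := by
    induction e with
    | h a b =>
      rw [mem_edgeSet] at he
      exact ⟨a, b, he.ne⟩
  obtain ⟨y, hy⟩ := hG.preconnected.exists_adj_of_nontrivial x
  rw [deg]
  have : Nonempty {y // G.Adj x y} := ⟨⟨y, hy⟩⟩
  exact Nat.card_pos

open Classical in
theorem eig_mul {G : SimpleGraph V} (hG : G.Connected) (hm : 1 ≤ Nat.card G.edgeSet) {μ : ℝ}
    {f : V → ℝ} (hf : ∀ x, ∑ y, P G x y * f y = μ * f x) (x : V) :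
    ∑ y, (if G.Adj x y then f y else 0) = μ * (deg G x * f x) := by
  have h := hf x
  rw [sum_P] at h
  have hd : (deg G x : ℝ) ≠ 0 := by
    have := deg_pos hG hm x
    positivity
  rw [div_eq_iff hd] at h
  rw [h]; ring

open Classical in
/-- Summing `φ x` over all ordered edges. -/
theorem sum_fst (G : SimpleGraph V) (φ : V → ℝ) :
    ∑ x, ∑ y, (if G.Adj x y then φ x else 0) = ∑ x, deg G x * φ x := by
  refine sum_congr rfl fun x _ => ?_
  rw [deg_cast, sum_mul]
  refine sum_congr rfl fun y _ => ?_
  split_ifs <;> simp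

open Classical in
theorem sum_snd (G : SimpleGraph V) (φ : V → ℝ) :
    ∑ x, ∑ y, (if G.Adj x y then φ y else 0) = ∑ x, deg G x * φ x := by
  rw [sum_comm, ← sum_fst]
  refine sum_congr rfl fun x _ => sum_congr rfl fun y _ => ?_
  simp only [G.adj_comm]

/-- The energy of an eigenfunction. -/
theorem energy {G : SimpleGraph V} (hG : G.Connected) (hm : 1 ≤ Nat.card G.edgeSet) {μ : ℝ}
    {f : V → ℝ} (hf : ∀ x, ∑ y, P G x y * f y = μ * f x) [DecidableRel G.Adj] :
    ∑ x, ∑ y, (if G.Adj x y then (f y - f x) ^ 2 else 0)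
      = 2 * (1 - μ) * ∑ x, deg G x * f x ^ 2 := by
  classical
  have h1 : ∀ x y, (if G.Adj x y then (f y - f x) ^ 2 else 0)
      = (if G.Adj x y then f x ^ 2 else 0) + (if G.Adj x y then f y ^ 2 else 0)
        - 2 * (f x * (if G.Adj x y then f y else 0)) := by
    intro x y
    split_ifs
    · ring
    · ring
  have h2 : ∑ x, ∑ y, (f x * (if G.Adj x y then f y else 0)) = μ * ∑ x, deg G x * f x ^ 2 := by
    rw [mul_sum]
    refine sum_congr rfl fun x _ => ?_
    rw [← mul_sum]
    have := eig_mul hG hm hf x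
    calc f x * ∑ y, (if G.Adj x y then f y else 0)
        = f x * (μ * (deg G x * f x)) := by rw [← this]; congr!
      _ = μ * (deg G x * f x ^ 2) := by ring
  have h3 : ∑ x, ∑ y, (if G.Adj x y then f x ^ 2 else 0) = ∑ x, deg G x * f x ^ 2 := by
    rw [← sum_fst G (fun x => f x ^ 2)]
    congr!
  have h4 : ∑ x, ∑ y, (if G.Adj x y then f y ^ 2 else 0) = ∑ x, deg G x * f x ^ 2 := by
    rw [← sum_snd G (fun x => f x ^ 2)]
    congr!
  simp only [h1, sum_sub_distrib, sum_add_distrib, ← mul_sum]
  rw [h3, h4]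
  have h5 : ∑ x, f x * ∑ y, (if G.Adj x y then f y else 0) = μ * ∑ x, deg G x * f x ^ 2 := by
    rw [← h2]
    exact sum_congr rfl fun x _ => mul_sum _ _ _
  rw [h5]
  ring

theorem mass {G : SimpleGraph V} (hG : G.Connected) (hm : 1 ≤ Nat.card G.edgeSet) {μ : ℝ}
    (hμ : μ ≠ 1) {f : V → ℝ} (hf : ∀ x, ∑ y, P G x y * f y = μ * f x) :
    ∑ x, deg G x * f x = 0 := by
  classical
  have h1 : ∑ x, deg G x * f x = μ * ∑ x, deg G x * f x := by
    conv_lhs => rw [← sum_snd]
    rw [mul_sum]
    exact sum_congr rfl fun x _ => eig_mul hG hm hf x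
  have h2 : (1 - μ) * ∑ x, deg G x * f x = 0 := by linarith
  rcases mul_eq_zero.1 h2 with h | h
  · exact absurd (by linarith) hμ
  · exact h

theorem sum_sq_pos {G : SimpleGraph V} (hG : G.Connected) (hm : 1 ≤ Nat.card G.edgeSet)
    {f : V → ℝ} (hf : f ≠ 0) : 0 < ∑ x, deg G x * f x ^ 2 := by
  obtain ⟨x, hx⟩ := Function.ne_iff.1 hf
  refine sum_pos' (fun y _ => by positivity) ⟨x, mem_univ _, ?_⟩
  have h1 := deg_pos hG hm x
  have h2 : f x ≠ 0 := hx
  positivity

open Classical in
theorem finsum_dart (G : SimpleGraph V) (φ : V → V → ℝ) :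
    ∑ᶠ d : G.Dart, φ d.fst d.snd = ∑ x, ∑ y, if G.Adj x y then φ x y else 0 := by
  rw [finsum_eq_sum_of_fintype]
  rw [← Fintype.sum_prod_type' (f := fun x y => if G.Adj x y then φ x y else 0)]
  rw [← sum_filter]
  symm
  refine sum_bij' (fun p hp => ⟨p, (mem_filter.1 hp).2⟩) (fun d _ => d.toProd) ?_ ?_ ?_ ?_ ?_
  · intro p hp; exact mem_univ _
  · intro d hd; exact mem_filter.2 ⟨mem_univ _, d.adj⟩
  · intro p hp; rfl
  · intro d hd; rfl
  · intro p hp; rfl

/-- Every eigenvalue different from `1` is at most `cos (π / m)`. -/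
theorem eigenvalue_le {G : SimpleGraph V} (hG : G.Connected) (hm : 1 ≤ Nat.card G.edgeSet)
    {μ : ℝ} (hμ : IsEigenvalue G μ) (hμ1 : μ ≠ 1) :
    μ ≤ Real.cos (Real.pi / Nat.card G.edgeSet) := by
  classical
  obtain ⟨f, hf0, hf⟩ := hμ
  set m := Nat.card G.edgeSet with hmdef
  obtain ⟨x, hx⟩ := Helper17.Relax.exists_cyclic G hG m hm rfl
  have hNZ : NeZero (2 * m) := ⟨by omega⟩
  have hsum : ∀ F : ZMod (2 * m) → ℝ, ∑ j, F j = ∑ j ∈ range (2 * m), F (j : ZMod (2 * m)) := by
    intro F
    symm
    refine sum_bij' (fun i _ => (i : ZMod (2 * m))) (fun j _ => j.val) ?_ ?_ ?_ ?_ ?_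
    · intro i _; exact mem_univ _
    · intro j _; exact mem_range.2 (ZMod.val_lt j)
    · intro i hi; exact ZMod.val_cast_of_lt (mem_range.1 hi)
    · intro j _; exact ZMod.natCast_zmod_val j
    · intro i _; rfl
  have hx' : ∀ φ : V → V → ℝ, ∑ j, φ (x j) (x (j + 1))
      = ∑ u, ∑ v, if G.Adj u v then φ u v else 0 := by
    intro φ
    rw [hsum, hx φ, finsum_dart]
  have e1 : ∑ j, f (x j) = 0 := by
    rw [hx' (fun u _ => f u), sum_fst]
    exact mass hG hm hμ1 hf
  have e2 : ∑ j, f (x j) ^ 2 = ∑ u, deg G u * f u ^ 2 := by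
    rw [hx' (fun u _ => f u ^ 2), sum_fst G (fun u => f u ^ 2)]
  have e3 : ∑ j, (f (x (j + 1)) - f (x j)) ^ 2 = 2 * (1 - μ) * ∑ u, deg G u * f u ^ 2 := by
    rw [hx' (fun u v => (f v - f u) ^ 2), energy hG hm hf]
  have hw := Helper17.Relax.wirtinger (fun j => f (x j)) e1
  rw [e2, e3] at hw
  have hpos := sum_sq_pos hG hm hf0
  have h2 : (2 * Real.pi / ((2 * m : ℕ) : ℝ)) = Real.pi / m := by
    push_cast
    rw [mul_div_mul_left _ _ (by norm_num : (2 : ℝ) ≠ 0)]
  rw [h2] at hw
  have h3 : 2 - 2 * Real.cos (Real.pi / m) ≤ 2 * (1 - μ) := le_of_mul_le_mul_right hw hpos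
  linarith

/-- Harmonic functions on a connected graph are constant: the eigenvalue `1` is simple. -/
theorem harmonic_const {G : SimpleGraph V} (hG : G.Connected) (hm : 1 ≤ Nat.card G.edgeSet)
    {f : V → ℝ} (hf : ∀ x, ∑ y, P G x y * f y = f x) : ∃ c, ∀ x, f x = c := by
  classical
  have hf' : ∀ x, ∑ y, P G x y * f y = 1 * f x := by intro x; rw [hf, one_mul]
  have h := energy hG hm hf'
  have h0 : ∑ x, ∑ y, (if G.Adj x y then (f y - f x) ^ 2 else 0) = 0 := by
    rw [h]; ring
  have hadj : ∀ x y, G.Adj x y → f y = f x := by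
    intro x y hxy
    have h1 := (sum_eq_zero_iff_of_nonneg (fun x _ => sum_nonneg fun y _ => by
      split_ifs <;> positivity)).1 h0 x (mem_univ _)
    have h2 := (sum_eq_zero_iff_of_nonneg (fun y _ => by
      split_ifs <;> positivity)).1 h1 y (mem_univ _)
    rw [if_pos hxy] at h2
    have := pow_eq_zero_iff (two_ne_zero) |>.1 h2
    linarith
  obtain ⟨r⟩ := hG.nonempty
  refine ⟨f r, fun x => ?_⟩
  obtain ⟨p⟩ := hG.preconnected x r
  induction p with
  | nil => rfl
  | cons h p ih => rw [← hadj _ _ h]; exact ih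

/-- Eigenvalues of the transition matrix form a finite set. -/
theorem finite_eigenvalues (G : SimpleGraph V) : {μ : ℝ | IsEigenvalue G μ}.Finite := by
  classical
  let T : Module.End ℝ (V → ℝ) := Matrix.toLin' (Matrix.of (P G))
  refine (T.finite_hasEigenvalue).subset ?_
  rintro μ ⟨f, hf0, hf⟩
  refine Module.End.hasEigenvalue_of_hasEigenvector (x := f) ⟨?_, hf0⟩
  rw [Module.End.mem_eigenspace_iff]
  funext x
  simp only [T, Matrix.toLin'_apply, Matrix.mulVec, dotProduct, Matrix.of_apply, Pi.smul_apply,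
    smul_eq_mul]
  exact hf x

/-- There is an eigenvalue different from `1`. -/
theorem exists_eigenvalue {G : SimpleGraph V} (hG : G.Connected)
    (hm : 1 ≤ Nat.card G.edgeSet) : ∃ μ, IsEigenvalue G μ ∧ μ ≠ 1 := by
  classical
  let s : V → ℝ := fun x => Real.sqrt (deg G x)
  have hs : ∀ x, 0 < s x := by
    intro x
    have := deg_pos hG hm x
    exact Real.sqrt_pos.2 (by exact_mod_cast this)
  have hss : ∀ x, s x * s x = deg G x := fun x => Real.mul_self_sqrt (by positivity)
  let A : Matrix V V ℝ := Matrix.of fun x y => if G.Adj x y then 1 / (s x * s y) else 0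
  have hA : A.IsHermitian := by
    apply Matrix.IsHermitian.ext
    intro i j
    simp only [A, Matrix.of_apply, G.adj_comm i j, mul_comm (s i) (s j), star_trivial]
  have htr : A.trace = 0 := by
    simp [A, Matrix.trace]
  obtain ⟨i, hi⟩ : ∃ i, hA.eigenvalues i ≠ 1 := by
    by_contra hcon
    push Not at hcon
    have h1 := hA.trace_eq_sum_eigenvalues
    rw [htr] at h1
    simp only [hcon] at h1
    obtain ⟨r⟩ := hG.nonempty
    have : (0 : ℝ) < Fintype.card V := by exact_mod_cast Fintype.card_pos_iff.2 ⟨r⟩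
    simp at h1
    have h2 : Fintype.card V ≠ 0 := by
      intro h; rw [h] at this; simp at this
    exact h2 (by exact_mod_cast h1.symm)
  refine ⟨hA.eigenvalues i, ⟨fun x => (hA.eigenvectorBasis i) x / s x, ?_, ?_⟩, hi⟩
  · intro h
    have hz : hA.eigenvectorBasis i = 0 := by
      ext x
      have := congrFun h x
      simp only [Pi.zero_apply, div_eq_zero_iff] at this
      rcases this with h | h
      · simpa using h
      · exact absurd h (hs x).ne'
    exact hA.eigenvectorBasis.toBasis.ne_zero i (by simpa using hz)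
  · intro x
    have h1 := congrFun (hA.mulVec_eigenvectorBasis i) x
    simp only [Matrix.mulVec, dotProduct, Pi.smul_apply, smul_eq_mul, A, Matrix.of_apply] at h1
    rw [sum_P]
    have hx := (hs x).ne'
    have h2 : ∑ y, (if G.Adj x y then (hA.eigenvectorBasis i) y / s y else 0)
        = s x * ∑ y, (if G.Adj x y then 1 / (s x * s y) else 0) * (hA.eigenvectorBasis i) y := by
      rw [mul_sum]
      refine sum_congr rfl fun y _ => ?_
      have hy := (hs y).ne'
      split_ifs
      · field_simp
      · simp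
    have h3 : (∑ y, (if G.Adj x y then (hA.eigenvectorBasis i) y / s y else 0))
        = s x * (hA.eigenvalues i * (hA.eigenvectorBasis i) x) := by
      rw [h2]; congr 1
    rw [h3, ← hss x]
    field_simp

theorem isGreatest_lambda2 {G : SimpleGraph V} (hG : G.Connected)
    (hm : 1 ≤ Nat.card G.edgeSet) :
    IsGreatest {μ : ℝ | IsEigenvalue G μ ∧ μ ≠ 1} (lambda2 G) := by
  have hfin : {μ : ℝ | IsEigenvalue G μ ∧ μ ≠ 1}.Finite :=
    (finite_eigenvalues G).subset fun μ h => h.1
  have hne : {μ : ℝ | IsEigenvalue G μ ∧ μ ≠ 1}.Nonempty := exists_eigenvalue hG hm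
  exact ⟨hne.csSup_mem hfin, fun μ h => le_csSup hfin.bddAbove h⟩

theorem lambda2_le {G : SimpleGraph V} (hG : G.Connected) (hm : 1 ≤ Nat.card G.edgeSet) :
    lambda2 G ≤ Real.cos (Real.pi / Nat.card G.edgeSet) :=
  eigenvalue_le hG hm (isGreatest_lambda2 hG hm).1.1 (isGreatest_lambda2 hG hm).1.2

end

/-! ### The path -/

section path

open Real

theorem sum_path (m : ℕ) (x : Fin (m + 1)) (φ : Fin (m + 1) → ℝ)
    [DecidableRel (pathGraph (m + 1)).Adj] :
    ∑ y, (if (pathGraph (m + 1)).Adj x y then φ y else 0)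
      = (if h : x.val + 1 < m + 1 then φ ⟨x.val + 1, h⟩ else 0)
        + (if 1 ≤ x.val then φ ⟨x.val - 1, by omega⟩ else 0) := by
  have h1 : ∀ y, (if (pathGraph (m + 1)).Adj x y then φ y else 0)
      = (if x.val + 1 = y.val then φ y else 0) + (if y.val + 1 = x.val then φ y else 0) := by
    intro y
    by_cases ha : x.val + 1 = y.val
    · have hb : ¬ y.val + 1 = x.val := by omega
      have hc : (pathGraph (m + 1)).Adj x y := pathGraph_adj.2 (Or.inl ha)
      simp [ha, hb, hc]
    · by_cases hb : y.val + 1 = x.val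
      · have hc : (pathGraph (m + 1)).Adj x y := pathGraph_adj.2 (Or.inr hb)
        simp [ha, hb, hc]
      · have hc : ¬ (pathGraph (m + 1)).Adj x y := by
          rw [pathGraph_adj]; tauto
        simp [ha, hb, hc]
  simp only [h1, sum_add_distrib]
  congr 1
  · split_ifs with h
    · rw [sum_eq_single ⟨x.val + 1, h⟩]
      · simp
      · intro b _ hb
        rw [if_neg]
        intro heq
        exact hb (Fin.ext heq.symm)
      · intro hcon; exact absurd (mem_univ _) hcon
    · apply sum_eq_zero
      intro y _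
      rw [if_neg]
      omega
  · split_ifs with h
    · rw [sum_eq_single ⟨x.val - 1, by omega⟩]
      · rw [if_pos]
        simp only
        omega
      · intro b _ hb
        rw [if_neg]
        intro heq
        apply hb
        apply Fin.ext
        simp only
        omega
      · intro hcon; exact absurd (mem_univ _) hcon
    · apply sum_eq_zero
      intro y _
      rw [if_neg]
      omega

theorem path_eigenvalue (m : ℕ) (hm : 1 ≤ m) :
    IsEigenvalue (pathGraph (m + 1)) (cos (π / m)) := by
  classical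
  have hm0 : (m : ℝ) ≠ 0 := by positivity
  refine ⟨fun i => cos (π * i.val / m), ?_, ?_⟩
  · intro h
    have := congrFun h 0
    simp at this
  · intro x
    rw [sum_P, deg_cast, sum_path, sum_path]
    have hx := x.2
    by_cases h0 : x.val = 0
    · have hmpos : 0 < m := hm
      simp [h0, hmpos]
    · have h2 : 1 ≤ x.val := by omega
      have hcast : ((x.val - 1 : ℕ) : ℝ) = (x.val : ℝ) - 1 := by
        push_cast [Nat.cast_sub h2]; ring
      by_cases h1 : x.val + 1 < m + 1
      · simp only [h1, h2, dite_true, if_true, hcast]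
        have e1 : π * ((x.val + 1 : ℕ) : ℝ) / m = π * x.val / m + π / m := by
          push_cast; ring
        have e2 : π * ((x.val : ℝ) - 1) / m = π * x.val / m - π / m := by ring
        rw [e1, e2, cos_add, cos_sub]
        ring
      · have h3 : x.val = m := by omega
        simp only [h1, h2, dite_false, if_true, hcast]
        have e2 : π * ((x.val : ℝ) - 1) / m = π - π / m := by
          rw [h3]; field_simp
        have e3 : π * (x.val : ℝ) / m = π := by
          rw [h3]; field_simp
        rw [e2, e3, cos_pi_sub, cos_pi]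
        ring

theorem path_edges (m : ℕ) : Nat.card (pathGraph (m + 1)).edgeSet = m := by
  have e : Fin m ≃ (pathGraph (m + 1)).edgeSet := by
    refine Equiv.ofBijective (fun i => ⟨s(i.castSucc, i.succ), ?_⟩) ⟨?_, ?_⟩
    · rw [mem_edgeSet, pathGraph_adj]
      left; simp
    · intro i j hij
      have := congrArg Subtype.val hij
      simp only [Sym2.eq_iff] at this
      rcases this with ⟨h, _⟩ | ⟨h1, h2⟩
      · exact Fin.castSucc_injective _ h
      · have h3 := congrArg Fin.val h1
        have h4 := congrArg Fin.val h2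
        simp at h3 h4
        omega
    · rintro ⟨e, he⟩
      induction e with
      | h a b =>
        rw [mem_edgeSet, pathGraph_adj] at he
        rcases he with h | h
        · refine ⟨⟨a.val, by omega⟩, ?_⟩
          apply Subtype.ext
          simp only [Sym2.eq_iff]
          left
          exact ⟨Fin.ext rfl, Fin.ext h⟩
        · refine ⟨⟨b.val, by omega⟩, ?_⟩
          apply Subtype.ext
          simp only [Sym2.eq_iff]
          right
          exact ⟨Fin.ext rfl, Fin.ext h⟩
  rw [← Nat.card_congr e]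
  simp

theorem path_isTree (m : ℕ) : (pathGraph (m + 1)).IsTree := by
  rw [isTree_iff_connected_and_card]
  refine ⟨pathGraph_connected m, ?_⟩
  rw [path_edges]
  simp

theorem cos_lt_one (m : ℕ) (hm : 1 ≤ m) : cos (π / m) < 1 := by
  have hm1 : (1 : ℝ) ≤ m := by exact_mod_cast hm
  have hpi := pi_pos
  have h1 : π / m ≤ π := div_le_self hpi.le hm1
  have h2 : 0 < π / m := by positivity
  calc cos (π / m) < cos 0 := cos_lt_cos_of_nonneg_of_le_pi le_rfl h1 h2
    _ = 1 := cos_zero

theorem lambda2_path (m : ℕ) (hm : 1 ≤ m) : lambda2 (pathGraph (m + 1)) = cos (π / m) := by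
  have hc := pathGraph_connected m
  have he : 1 ≤ Nat.card (pathGraph (m + 1)).edgeSet := by rw [path_edges]; exact hm
  apply le_antisymm
  · have := lambda2_le hc he
    rwa [path_edges] at this
  · exact (isGreatest_lambda2 hc he).2 ⟨path_eigenvalue m hm, (cos_lt_one m hm).ne⟩

theorem Trel_path (m : ℕ) (hm : 1 ≤ m) :
    Trel (pathGraph (m + 1)) = 1 / (1 - cos (π / m)) := by
  rw [Trel, lambda2_path m hm]

theorem Trel_le {V : Type} [Fintype V] {G : SimpleGraph V} (hG : G.Connected) (m : ℕ)
    (hm : 1 ≤ m) (hcard : Nat.card G.edgeSet = m) : Trel G ≤ Trel (pathGraph (m + 1)) := by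
  rw [Trel_path m hm, Trel]
  have h1 := lambda2_le hG (by rw [hcard]; exact hm)
  rw [hcard] at h1
  have h2 := cos_lt_one m hm
  exact one_div_le_one_div_of_le (by linarith) (by linarith)

theorem greatest (m : ℕ) (hm : 1 ≤ m) :
    IsGreatest (relaxationTimes m) (Trel (pathGraph (m + 1))) := by
  refine ⟨⟨Fin (m + 1), inferInstance, pathGraph (m + 1), pathGraph_connected m, path_edges m,
    rfl⟩, ?_⟩
  rintro t ⟨V, hV, G, hG, hcard, rfl⟩
  exact Trel_le hG m hm hcard

theorem greatestTree (m : ℕ) (hm : 1 ≤ m) :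
    IsGreatest (relaxationTimesTree m) (Trel (pathGraph (m + 1))) := by
  refine ⟨⟨Fin (m + 1), inferInstance, pathGraph (m + 1), path_isTree m, path_edges m,
    rfl⟩, ?_⟩
  rintro t ⟨V, hV, G, hG, hcard, rfl⟩
  exact Trel_le hG.connected m hm hcard

/-- `(1 / (1 - cos (π / m))) / (2 m² / π²) → 1`. -/
theorem tendsto_ratio :
    Tendsto (fun m : ℕ => (1 / (1 - cos (π / m))) / (2 * (m : ℝ) ^ 2 / π ^ 2)) atTop (𝓝 1) := by
  -- `sin x / x → 1`
  have hsin : Tendsto (fun x : ℝ => sin x / x) (𝓝[≠] 0) (𝓝 1) := by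
    have h := (hasDerivAt_sin 0).tendsto_slope
    simp only [cos_zero] at h
    refine h.congr' ?_
    filter_upwards with x
    simp [slope_def_field]
  have hx : Tendsto (fun m : ℕ => π / m / 2) atTop (𝓝[≠] 0) := by
    rw [tendsto_nhdsWithin_iff]
    constructor
    · have h1 : Tendsto (fun m : ℕ => π / (m : ℝ)) atTop (𝓝 0) :=
        tendsto_const_div_atTop_nhds_zero_nat π
      simpa using h1.div_const 2
    · filter_upwards [eventually_ge_atTop 1] with m hm
      have : (0 : ℝ) < m := by exact_mod_cast hm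
      have h : 0 < π / m / 2 := by positivity
      exact h.ne'
  have h2 := hsin.comp hx
  have h3 : Tendsto (fun m : ℕ => ((sin (π / m / 2) / (π / m / 2)) ^ 2)⁻¹) atTop (𝓝 1) := by
    have := (h2.pow 2).inv₀ (by norm_num)
    simpa using this
  refine h3.congr' ?_
  filter_upwards [eventually_ge_atTop 1] with m hm
  have hm0 : (0 : ℝ) < m := by exact_mod_cast hm
  have hpi := pi_pos
  have hcos : 1 - cos (π / m) = 2 * sin (π / m / 2) ^ 2 := by
    have := cos_sq' (π / m / 2)
    have h4 := cos_two_mul (π / m / 2)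
    have h5 : 2 * (π / m / 2) = π / m := by ring
    rw [h5] at h4
    linarith
  rw [hcos]
  have hs : 0 < sin (π / m / 2) := by
    apply sin_pos_of_pos_of_lt_pi (by positivity)
    have hm1 : (1 : ℝ) ≤ m := by exact_mod_cast hm
    have : π / m ≤ π := div_le_self hpi.le hm1
    linarith
  field_simp

/-- **Main theorem.**  Among the finite connected graphs with `m ≥ 1` edges the path has the
largest relaxation time, namely `1 / (1 - cos (π / m))`; hence `R(m)` and `R_tree(m)` are both equal
to the relaxation time of the path with `m` edges, and both are asymptotic to `2 m² / π²`. -/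
theorem result :
    -- for a connected graph with at least one edge the eigenvalue `1` is simple, and `λ₂` is the
    -- largest eigenvalue different from `1`
    (∀ (V : Type) [Fintype V] (G : SimpleGraph V), G.Connected → 1 ≤ Nat.card G.edgeSet →
      (∀ f : V → ℝ, (∀ x, ∑ y, P G x y * f y = f x) → ∃ c, ∀ x, f x = c) ∧
      IsGreatest {μ : ℝ | IsEigenvalue G μ ∧ μ ≠ 1} (lambda2 G)) ∧
    -- the path maximises the relaxation time
    (∀ (V : Type) [Fintype V] (G : SimpleGraph V) (m : ℕ), 1 ≤ m → G.Connected →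
      Nat.card G.edgeSet = m → Trel G ≤ Trel (pathGraph (m + 1))) ∧
    (∀ m : ℕ, 1 ≤ m → Trel (pathGraph (m + 1)) = 1 / (1 - Real.cos (Real.pi / m)) ∧
      R m = Trel (pathGraph (m + 1)) ∧ IsGreatest (relaxationTimes m) (R m) ∧
      Rtree m = Trel (pathGraph (m + 1)) ∧ IsGreatest (relaxationTimesTree m) (Rtree m)) ∧
    -- asymptotics
    Tendsto (fun m : ℕ => R m / (2 * (m : ℝ) ^ 2 / Real.pi ^ 2)) atTop (𝓝 1) ∧
    Tendsto (fun m : ℕ => Rtree m / (2 * (m : ℝ) ^ 2 / Real.pi ^ 2)) atTop (𝓝 1) := by
  have hR : ∀ m : ℕ, 1 ≤ m → R m = Trel (pathGraph (m + 1)) := fun m hm =>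
    (greatest m hm).csSup_eq
  have hRt : ∀ m : ℕ, 1 ≤ m → Rtree m = Trel (pathGraph (m + 1)) := fun m hm =>
    (greatestTree m hm).csSup_eq
  refine ⟨fun V _ G hG hm => ⟨fun f hf => harmonic_const hG hm hf, isGreatest_lambda2 hG hm⟩,
    fun V _ G m hm hG hcard => Trel_le hG m hm hcard, fun m hm => ⟨Trel_path m hm, hR m hm,
    ?_, hRt m hm, ?_⟩, ?_, ?_⟩
  · rw [hR m hm]; exact greatest m hm
  · rw [hRt m hm]; exact greatestTree m hm
  · refine tendsto_ratio.congr' ?_
    filter_upwards [eventually_ge_atTop 1] with m hm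
    rw [hR m hm, Trel_path m hm]
  · refine tendsto_ratio.congr' ?_
    filter_upwards [eventually_ge_atTop 1] with m hm
    rw [hRt m hm, Trel_path m hm]

end path

end Pool.Agent.Results.MP_ea35a0_co.RelaxationTime
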